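import Pool.Agent.Helper78.SqOwn

set_option autoImplicit false

namespace Pool.Agent.Results.MP_6d7699_an.LevelSetsOfFixedProportion

/-- There is a symmetric probability measure `μ` on the integers, with `μ 0 ≥ 3/4` and Fourier
transform in `[1/2, 1)` off zero (so its angular ratio is constantly one), such that for every
level `lam` there is a nonzero finitely supported `f` for which the square function (already the
sum up to some `N`) exceeds `lam` at `‖f‖₁ / 4` or more integers. `P n` is the `n`-th convolution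
power of `μ`. In particular the square function is not of weak type `(1,1)`. -/
theorem result : ∃ (μ : ℤ → ℝ) (P : ℕ → ℤ → ℝ),
    (∀ k, 0 ≤ μ k) ∧ HasSum μ 1 ∧ (∀ k, μ (-k) = μ k) ∧ 3 / 4 ≤ μ 0 ∧
    (∀ t : ℝ, 0 < |t| → |t| ≤ Real.pi → ∃ c : ℝ, 1 / 2 ≤ c ∧ c < 1 ∧
      HasSum (fun k : ℤ => (μ k : ℂ) * Complex.exp (t * k * Complex.I)) (c : ℂ)) ∧
    P 0 = Pi.single 0 1 ∧ (∀ n m, HasSum (fun i => μ i * P n (m - i)) (P (n + 1) m)) ∧
    ∀ lam : ℝ, 0 < lam → ∃ (f : ℤ → ℝ) (S G : Finset ℤ) (N : ℕ),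
      (∀ k, k ∉ S → f k = 0) ∧ 0 < ∑ k ∈ S, |f k| ∧ ∑ k ∈ S, |f k| ≤ 4 * (G.card : ℝ) ∧
      ∀ k ∈ G, lam ^ 2 < ∑ n ∈ Finset.Icc 1 N,
        (n : ℝ) * (∑ j ∈ S, (P n (k - j) - P (n + 1) (k - j)) * f j) ^ 2 :=
  Helper78.SqOwn.main

end Pool.Agent.Results.MP_6d7699_an.LevelSetsOfFixedProportion
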